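import Pool.Agent.Helper43.NH.FinalN

/-!
MP_f22a19_gt, partial answer to Q1: closed affine manifolds whose holonomy group is virtually nilpotent
have vanishing simplicial volume; more precisely the l1-seminorm vanishes on the whole top homology.

A closed affine manifold of dimension `n + 1` is given by its developing data: a connected Hausdorff
covering space `M` on which a group `G` acts freely, properly discontinuously and cocompactly, a local
homeomorphism `dev : M → R^(n+1)` and a homomorphism `hol` from `G` to the affine group with
`dev (g x) = hol g (dev x)`. The closed manifold is the orbit space `M / G`.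
-/

set_option autoImplicit false

universe u v

namespace Pool.Agent.Results.MP_f22a19_gt.NilpotentHolonomy

/-- singular `k`-simplices of a space -/
abbrev Simplex (X : Type*) [TopologicalSpace X] (k : ℕ) : Type _ := C(stdSimplex ℝ (Fin (k + 1)), X)

/-- real singular `k`-chains -/
abbrev Chain (X : Type*) [TopologicalSpace X] (k : ℕ) : Type _ := Simplex X k →₀ ℝ

/-- the face of the standard simplex opposite to the vertex `i` -/
noncomputable def face (k : ℕ) (i : Fin (k + 2)) : C(stdSimplex ℝ (Fin (k + 1)), stdSimplex ℝ (Fin (k + 2))) :=
  ⟨stdSimplex.map i.succAbove, stdSimplex.continuous_map _⟩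

/-- the singular boundary: alternating sum of the faces -/
noncomputable def boundary (X : Type*) [TopologicalSpace X] (k : ℕ) : Chain X (k + 1) →ₗ[ℝ] Chain X k :=
  Finsupp.linearCombination ℝ (fun σ : Simplex X (k + 1) =>
    ∑ i : Fin (k + 2), (-1 : ℝ) ^ (i : ℕ) • (Finsupp.single (σ.comp (face k i)) (1 : ℝ) : Chain X k))

/-- the l1-norm of a real singular chain: sum of the absolute values of its coefficients -/
noncomputable def l1norm {X : Type*} [TopologicalSpace X] {k : ℕ} (c : Chain X k) : ℝ := ∑ σ ∈ c.support, |c σ|

/-- the affine group of `R^n` -/
abbrev Aff (n : ℕ) : Type := (Fin n → ℝ) ≃ᵃ[ℝ] (Fin n → ℝ)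

/-- `G` acts on `M` by homeomorphisms, freely, properly discontinuously and cocompactly, where `M` is
connected and Hausdorff -/
structure CoveringAction (M : Type u) (G : Type v) [TopologicalSpace M] [Group G] [MulAction G M] : Prop where
  hausdorff : T2Space M
  connected : ConnectedSpace M
  continuous : ContinuousConstSMul G M
  discontinuous : ProperlyDiscontinuousSMul G M
  free : ∀ (g : G) (x : M), g • x = x → g = 1
  cocompact : ∃ K : Set M, IsCompact K ∧ ∀ x : M, ∃ g : G, ∃ y ∈ K, x = g • y

/-- `dev` is a developing map with holonomy `hol`: a local homeomorphism to `R^n`, equivariant with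
respect to the homomorphism `hol` to the affine group -/
structure Develops {n : ℕ} {M : Type u} {G : Type v} [TopologicalSpace M] [Group G] [MulAction G M]
    (dev : M → (Fin n → ℝ)) (hol : G →* Aff n) : Prop where
  localHomeo : IsLocalHomeomorph dev
  equivariant : ∀ (g : G) (x : M), dev (g • x) = hol g (dev x)

/-- every real singular cycle of degree `k + 1` is homologous to cycles of arbitrarily small l1-norm -/
def SeminormVanishes (X : Type*) [TopologicalSpace X] (k : ℕ) : Prop :=
  ∀ z : Chain X (k + 1), boundary X k z = 0 → ∀ ε : ℝ, 0 < ε →
    ∃ (z' : Chain X (k + 1)) (c : Chain X (k + 2)), z' - z = boundary X (k + 1) c ∧ l1norm z' < ε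

/-- Let `M / G` be a closed affine manifold of dimension `n + 1` given by a covering space `M` with
group `G`, a developing map `dev` and holonomy `hol`, and suppose that the image under `hol` of some
subgroup `H` of finite index is a nilpotent group. Then every real singular `(n+1)`-cycle of `M / G` is
homologous to cycles of arbitrarily small l1-norm. -/
theorem result (n : ℕ) (M : Type u) (G : Type v) [TopologicalSpace M] [Group G] [MulAction G M]
    (action : CoveringAction M G) (dev : M → (Fin (n + 1) → ℝ)) (hol : G →* Aff (n + 1)) (hdev : Develops dev hol)
    (H : Subgroup G) (finiteIndex : H.FiniteIndex) (nilpotent : Group.IsNilpotent (H.map hol)) :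
    SeminormVanishes (Quotient (MulAction.orbitRel G M)) n := by
  intro z hz ε hε
  have := action.hausdorff
  have := action.connected
  have := action.continuous
  have := action.discontinuous
  obtain ⟨K, hK, hcov⟩ := action.cocompact
  obtain ⟨z', c, h1, h2⟩ := SV.nh_virt action.free K hK hcov n dev hdev.localHomeo hol hdev.equivariant H nilpotent
    z hz ε hε
  exact ⟨z', c, h2, h1⟩

end Pool.Agent.Results.MP_f22a19_gt.NilpotentHolonomy
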